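import Pool.Agent.Run7.h538.TP.Stm

set_option autoImplicit false

/-! Piece PROP of project TP (helper538): an eigenvector of a matrix of the tadpole that vanishes at
two adjacent cycle vertices vanishes. -/

open Finset Matrix

namespace Run7.h232.TP

open Run7.h538.TP

/-- Zero forcing: if `v x = 0` and `v` vanishes at all neighbours of `x` but `y`, then `v y = 0`. -/
theorem force {V : Type} [Fintype V] [DecidableEq V] {G : SimpleGraph V} {C : Matrix V V ℝ}
    {μ : ℝ} {v : V → ℝ} (hC : InS G C) (hv : C *ᵥ v = μ • v) {x y : V} (hxy : G.Adj x y)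
    (hx : v x = 0) (h : ∀ z, G.Adj x z → z ≠ y → v z = 0) : v y = 0 := by
  have h1 := congrFun hv x
  simp only [Matrix.mulVec, dotProduct, Pi.smul_apply, hx, smul_zero] at h1
  rw [Finset.sum_eq_single y] at h1
  · have h2 : C x y ≠ 0 := (hC.2 x y hxy.ne).2 hxy
    exact (mul_eq_zero.1 h1).resolve_left h2
  · intro z _ hz
    by_cases hzx : z = x
    · rw [hzx, hx, mul_zero]
    · by_cases ha : G.Adj x z
      · rw [h z ha hz, mul_zero]
      · have h3 : C x z = 0 := by
          by_contra hne
          exact ha ((hC.2 x z (fun e => hzx e.symm)).1 hne)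
        rw [h3, zero_mul]
  · intro hy
    exact absurd (Finset.mem_univ y) hy

/-- `v` vanishes on the cycle. -/
theorem cyc_zero {m n : ℕ} (hm : 3 ≤ m) {C : Matrix (Fin m ⊕ Fin n) (Fin m ⊕ Fin n) ℝ} {μ : ℝ}
    {v : Fin m ⊕ Fin n → ℝ} (hC : InS (tadpole m n) C) (hv : C *ᵥ v = μ • v)
    (h0 : v (.inl ⟨0, by omega⟩) = 0) (h1 : v (.inl ⟨1, by omega⟩) = 0) :
    ∀ i : ℕ, ∀ hi : i < m, v (.inl ⟨i, hi⟩) = 0 := by
  intro i
  induction i using Nat.strong_induction_on with
  | _ i ih =>
    intro hi
    rcases i with _ | _ | i
    · exact h0
    · exact h1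
    · refine force hC hv (x := .inl ⟨i + 1, by omega⟩) ?_ (ih (i + 1) (by omega) _) ?_
      · refine (SimpleGraph.fromRel_adj _ _ _).2 ⟨?_, Or.inl ?_⟩
        · intro e
          have e' := congrArg Fin.val (Sum.inl.inj e)
          simp only at e'
          omega
        · exact Nat.mod_eq_of_lt (by omega)
      · intro z hz hne
        obtain ⟨hz0, hz⟩ := (SimpleGraph.fromRel_adj _ _ _).1 hz
        rcases z with ⟨b, hb⟩ | c
        · rcases hz with hz | hz
          · exfalso
            apply hne
            have hz' : (i + 1 + 1) % m = b := hz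
            rw [Nat.mod_eq_of_lt (by omega)] at hz'
            subst hz'
            rfl
          · have hz' : (b + 1) % m = i + 1 := hz
            have hbi : b = i := by
              by_cases hb1 : b + 1 < m
              · rw [Nat.mod_eq_of_lt hb1] at hz'
                omega
              · have h3 : b + 1 = m := by omega
                rw [h3, Nat.mod_self] at hz'
                omega
            subst hbi
            exact ih b (by omega) hb
        · exfalso
          rcases hz with hz | hz
          · have hz' : i + 1 = 0 ∧ c.val = 0 := hz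
            omega
          · exact hz

theorem t_PROP : S_PROP := by
  intro m n hm C μ v hC hv h0 h1
  have hcyc := cyc_zero hm hC hv h0 h1
  have htail : ∀ j : ℕ, ∀ hj : j < n, v (.inr ⟨j, hj⟩) = 0 := by
    intro j
    induction j using Nat.strong_induction_on with
    | _ j ih =>
      intro hj
      rcases j with _ | j
      · refine force hC hv (x := .inl ⟨0, by omega⟩) ?_ h0 ?_
        · exact (SimpleGraph.fromRel_adj _ _ _).2 ⟨Sum.inl_ne_inr, Or.inl ⟨rfl, rfl⟩⟩
        · intro z hz hne
          obtain ⟨hz0, hz⟩ := (SimpleGraph.fromRel_adj _ _ _).1 hz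
          rcases z with ⟨b, hb⟩ | ⟨c, hc⟩
          · exact hcyc b hb
          · exfalso
            rcases hz with hz | hz
            · have hz' : 0 = 0 ∧ c = 0 := hz
              apply hne
              obtain ⟨_, hz2⟩ := hz'
              subst hz2
              rfl
            · exact hz
      · refine force hC hv (x := .inr ⟨j, by omega⟩) ?_ (ih j (by omega) _) ?_
        · refine (SimpleGraph.fromRel_adj _ _ _).2 ⟨?_, Or.inl rfl⟩
          intro e
          have e' := congrArg Fin.val (Sum.inr.inj e)
          simp only at e'
          omega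
        · intro z hz hne
          obtain ⟨hz0, hz⟩ := (SimpleGraph.fromRel_adj _ _ _).1 hz
          rcases z with ⟨b, hb⟩ | ⟨c, hc⟩
          · exact hcyc b hb
          · rcases hz with hz | hz
            · exfalso
              have hz' : j + 1 = c := hz
              apply hne
              subst hz'
              rfl
            · have hz' : c + 1 = j := hz
              exact ih c (by omega) hc
  funext z
  rcases z with ⟨b, hb⟩ | ⟨c, hc⟩
  · exact hcyc b hb
  · exact htail c hc

end Run7.h232.TP

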